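import Pool.Agent.X177.GL.Man

/-! # MP_bd3523_gt Q2: an element of `Homeo¹(S)` is differentiable almost everywhere

A homeomorphism of a smooth surface which maps every `C¹` curve (simple closed curve that is an
embedded `C¹` submanifold) onto a `C¹` curve has a non-differentiable set of measure zero. -/

set_option autoImplicit false

namespace Pool.Agent.Results.MP_bd3523_gt.NullNonDiff

open MeasureTheory Set Filter Topology
open scoped Manifold ContDiff

universe u

section defs

variable {S : Type u} [TopologicalSpace S] [ChartedSpace (EuclideanSpace ℝ (Fin 2)) S]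

/-- `K` is a `C¹` curve: the image of an injective `C¹` map with nowhere vanishing derivative from a
circle `ℝ / T ℤ` to the surface (given as a `T`-periodic map of the line, injective on a period). -/
def IsC1Curve (K : Set S) : Prop :=
  ∃ (γ : ℝ → S) (T : ℝ), 0 < T ∧ Function.Periodic γ T ∧ InjOn γ (Ico 0 T) ∧
    ContMDiff 𝓘(ℝ) (𝓡 2) 1 γ ∧ (∀ t, mfderiv 𝓘(ℝ) (𝓡 2) γ t ≠ 0) ∧ K = range γ

/-- `f ∈ Homeo¹(S)`: both `f` and its inverse map every `C¹` curve onto a `C¹` curve. -/
def IsHomeo1 (f : S ≃ₜ S) : Prop :=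
  ∀ K : Set S, IsC1Curve K → IsC1Curve (f '' K) ∧ IsC1Curve (f.symm '' K)

/-- the non-differentiable set of `f` -/
def nonDiffSet (f : S → S) : Set S := {p | ¬ MDifferentiableAt (𝓡 2) (𝓡 2) f p}

/-- `A` has positive measure: its part in the domain of some smooth chart is mapped by the chart onto a
set of positive two-dimensional Lebesgue (outer) measure. -/
def HasPositiveMeasure (A : Set S) : Prop :=
  ∃ φ ∈ IsManifold.maximalAtlas (𝓡 2) ∞ S, 0 < volume (φ '' (φ.source ∩ A))

end defs

open Pool.Agent.X177.GL in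
/-- a round circle of a chart is a `C¹` curve -/
lemma circle_curve {S : Type u} [TopologicalSpace S] [ChartedSpace (EuclideanSpace ℝ (Fin 2)) S]
    [IsManifold (𝓡 2) ∞ S] {φ : OpenPartialHomeomorph S (EuclideanSpace ℝ (Fin 2))}
    (hφ : φ ∈ IsManifold.maximalAtlas (𝓡 2) ∞ S) {a b r : ℝ} (hr : 0 < r)
    (hin : ∀ t : ℝ, e2 (a + r * Real.cos t, b + r * Real.sin t) ∈ φ.target) :
    IsC1Curve (range fun t : ℝ => φ.symm (e2 (a + r * Real.cos t, b + r * Real.sin t))) := by
  have hc : ContDiff ℝ 1 fun t : ℝ => e2 (a + r * Real.cos t, b + r * Real.sin t) := by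
    apply e2.contDiff.comp
    apply ContDiff.prodMk
    · exact contDiff_const.add (contDiff_const.mul Real.contDiff_cos)
    · exact contDiff_const.add (contDiff_const.mul Real.contDiff_sin)
  have hsm : ContMDiff 𝓘(ℝ) (𝓡 2) 1
      fun t : ℝ => φ.symm (e2 (a + r * Real.cos t, b + r * Real.sin t)) := by
    have h1 : ContMDiffOn (𝓡 2) (𝓡 2) 1 φ.symm φ.target :=
      (contMDiffOn_symm_of_mem_maximalAtlas hφ).of_le (by
        exact_mod_cast le_top)
    exact h1.comp_contMDiff hc.contMDiff hin
  refine ⟨_, 2 * Real.pi, by positivity, ?_, ?_, hsm, ?_, rfl⟩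
  · intro t
    simp only [Real.cos_add_two_pi, Real.sin_add_two_pi]
  · intro s hs t ht hst
    have h1 := φ.symm.injOn (by simpa using hin s) (by simpa using hin t) hst
    have h2 := e2.injective h1
    rw [Prod.mk.injEq] at h2
    have h3 : Real.cos s = Real.cos t := by
      have := h2.1
      have h4 : r * Real.cos s = r * Real.cos t := by linarith
      exact mul_left_cancel₀ hr.ne' h4
    have h5 : Real.sin s = Real.sin t := by
      have := h2.2
      have h4 : r * Real.sin s = r * Real.sin t := by linarith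
      exact mul_left_cancel₀ hr.ne' h4
    have h6 := Real.Angle.cos_sin_inj h3 h5
    rw [Real.Angle.angle_eq_iff_two_pi_dvd_sub] at h6
    obtain ⟨k, hk⟩ := h6
    have hpi := Real.pi_pos
    have h7 : k = 0 := by
      have h8 : (-1 : ℝ) < k := by
        by_contra hcon
        push Not at hcon
        nlinarith [hs.1, ht.2]
      have h9 : (k : ℝ) < 1 := by
        by_contra hcon
        push Not at hcon
        nlinarith [hs.2, ht.1]
      have h10 : (-1 : ℤ) < k := by exact_mod_cast h8
      have h11 : k < (1 : ℤ) := by exact_mod_cast h9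
      omega
    rw [h7] at hk
    simp only [Int.cast_zero, mul_zero] at hk
    linarith
  · intro t h0
    have hd : HasDerivAt (fun t : ℝ => e2 (a + r * Real.cos t, b + r * Real.sin t))
        (e2 (r * (-Real.sin t), r * Real.cos t)) t := by
      have h1 : HasDerivAt (fun t : ℝ => (a + r * Real.cos t, b + r * Real.sin t))
          (r * (-Real.sin t), r * Real.cos t) t :=
        (((Real.hasDerivAt_cos t).const_mul r).const_add a).prodMk
          (((Real.hasDerivAt_sin t).const_mul r).const_add b)
      exact (e2 : (ℝ × ℝ) →L[ℝ] EuclideanSpace ℝ (Fin 2)).hasFDerivAt.comp_hasDerivAt t h1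
    set γ : ℝ → S := fun t : ℝ => φ.symm (e2 (a + r * Real.cos t, b + r * Real.sin t)) with hγ
    have hγs : γ t ∈ φ.source := φ.map_target (hin t)
    have hmφ : MDifferentiableAt (𝓡 2) (𝓡 2) φ (γ t) :=
      ((contMDiffOn_of_mem_maximalAtlas hφ).contMDiffAt
        (φ.open_source.mem_nhds hγs)).mdifferentiableAt (by simp)
    have hmγ : MDifferentiableAt 𝓘(ℝ) (𝓡 2) γ t := (hsm t).mdifferentiableAt (by norm_num)
    have hcomp : mfderiv 𝓘(ℝ) (𝓡 2) (fun t => φ (γ t)) t =
        (mfderiv (𝓡 2) (𝓡 2) φ (γ t)).comp (mfderiv 𝓘(ℝ) (𝓡 2) γ t) :=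
      mfderiv_comp t hmφ hmγ
    have hfun : (fun t => φ (γ t)) =
        fun t : ℝ => e2 (a + r * Real.cos t, b + r * Real.sin t) := by
      funext s
      exact φ.right_inv (hin s)
    rw [h0, ContinuousLinearMap.comp_zero, hfun, mfderiv_eq_fderiv] at hcomp
    have h1 := hd.deriv
    rw [← fderiv_apply_one_eq_deriv] at h1
    have h2 : (fderiv ℝ (fun t : ℝ => e2 (a + r * Real.cos t, b + r * Real.sin t)) t) 1 = 0 := by
      have := congrArg (fun L : ℝ →L[ℝ] EuclideanSpace ℝ (Fin 2) => L 1) hcomp
      exact this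
    rw [h2] at h1
    have h3 : ((r * (-Real.sin t), r * Real.cos t) : ℝ × ℝ) = 0 := by
      apply e2.injective
      rw [← h1, map_zero]
    rw [Prod.mk_eq_zero] at h3
    have h4 : Real.sin t = 0 := by
      have := h3.1
      rcases mul_eq_zero.1 this with h | h
      · exact absurd h hr.ne'
      · linarith
    have h5 : Real.cos t = 0 := by
      rcases mul_eq_zero.1 h3.2 with h | h
      · exact absurd h hr.ne'
      · exact h
    have h6 := Real.sin_sq_add_cos_sq t
    rw [h4, h5] at h6
    norm_num at h6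

/-- **Q2 of MP_bd3523_gt (negative answer).** For every smooth surface `S` the non-differentiable set
of every element of `Homeo¹(S)` has measure zero. -/
theorem result : ∀ (S : Type u) [TopologicalSpace S] [T2Space S]
    [ChartedSpace (EuclideanSpace ℝ (Fin 2)) S] [IsManifold (𝓡 2) ∞ S] (f : S ≃ₜ S),
    IsHomeo1 f → ¬ HasPositiveMeasure (nonDiffSet f) := by
  intro S _ _ _ _ f hf
  rintro ⟨φ, hφ, hpos⟩
  refine absurd (Pool.Agent.X177.GL.null_nondiff f hφ ?_) hpos.ne'
  intro a b r hr hin
  obtain ⟨β, T, hT, hper, hinj, hβ, -, hran⟩ := (hf _ (circle_curve hφ hr hin)).1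
  refine ⟨β, T, hT, hβ, hper, hinj, fun t => ?_⟩
  rw [← hran]
  exact ⟨_, ⟨t, rfl⟩, rfl⟩

end Pool.Agent.Results.MP_bd3523_gt.NullNonDiff
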